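import Mathlib

/-! # Heisenberg groups over commutative rings and the counting lemma -/

namespace Pool.Agent.Q199.CS

/-- Elements of the Heisenberg group over `R`: the triple `(a,b,c)` stands for the upper
unitriangular matrix with entries `a`, `b` next to the diagonal and `c` in the corner. -/
@[ext] structure Heis (R : Type) where
  a : R
  b : R
  c : R

variable {R : Type} [CommRing R]

instance : Mul (Heis R) := ⟨fun g h => ⟨g.a + h.a, g.b + h.b, g.c + h.c + g.a * h.b⟩⟩
instance : One (Heis R) := ⟨⟨0, 0, 0⟩⟩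
instance : Inv (Heis R) := ⟨fun g => ⟨-g.a, -g.b, -g.c + g.a * g.b⟩⟩

@[simp] lemma mul_a (g h : Heis R) : (g * h).a = g.a + h.a := rfl
@[simp] lemma mul_b (g h : Heis R) : (g * h).b = g.b + h.b := rfl
@[simp] lemma mul_c (g h : Heis R) : (g * h).c = g.c + h.c + g.a * h.b := rfl
@[simp] lemma one_a : (1 : Heis R).a = 0 := rfl
@[simp] lemma one_b : (1 : Heis R).b = 0 := rfl
@[simp] lemma one_c : (1 : Heis R).c = 0 := rfl
@[simp] lemma inv_a (g : Heis R) : (g⁻¹).a = -g.a := rfl
@[simp] lemma inv_b (g : Heis R) : (g⁻¹).b = -g.b := rfl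
@[simp] lemma inv_c (g : Heis R) : (g⁻¹).c = -g.c + g.a * g.b := rfl

instance : Group (Heis R) := Group.ofLeftAxioms
  (by intro g h k; ext <;> simp <;> ring)
  (by intro g; ext <;> simp)
  (by intro g; ext <;> simp)

instance [DecidableEq R] : DecidableEq (Heis R) := fun g h =>
  decidable_of_iff (g.a = h.a ∧ g.b = h.b ∧ g.c = h.c) Heis.ext_iff.symm

/-- `Heis R` is in bijection with `R × R × R`. -/
def equivProd (R : Type) : Heis R ≃ R × R × R where
  toFun g := (g.a, g.b, g.c)
  invFun t := ⟨t.1, t.2.1, t.2.2⟩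
  left_inv _ := rfl
  right_inv _ := rfl

instance [Countable R] : Countable (Heis R) := (equivProd R).countable_iff.2 inferInstance
noncomputable instance [Fintype R] : Fintype (Heis R) := Fintype.ofEquiv _ (equivProd R).symm

/-- Reduction of an integral Heisenberg element in another ring. -/
def red (R : Type) [CommRing R] : Heis ℤ →* Heis R where
  toFun g := ⟨(g.a : R), (g.b : R), (g.c : R)⟩
  map_one' := by ext <;> simp
  map_mul' g h := by ext <;> simp

@[simp] lemma red_a (g : Heis ℤ) : (red R g).a = (g.a : R) := rfl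
@[simp] lemma red_b (g : Heis ℤ) : (red R g).b = (g.b : R) := rfl
@[simp] lemma red_c (g : Heis ℤ) : (red R g).c = (g.c : R) := rfl

/-- A nonzero polynomial of degree at most two has at most two roots. -/
lemma card_quadratic_le {K : Type} [Field K] [Fintype K] [DecidableEq K] (c2 c1 c0 : K)
    (h : c2 ≠ 0 ∨ c1 ≠ 0) :
    (Finset.univ.filter (fun t : K => c2 * t ^ 2 + c1 * t + c0 = 0)).card ≤ 2 := by
  classical
  set P : Polynomial K := Polynomial.C c2 * Polynomial.X ^ 2 + Polynomial.C c1 * Polynomial.X
    + Polynomial.C c0 with hP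
  have hne : P ≠ 0 := by
    intro h0
    have h2 : P.coeff 2 = 0 := by rw [h0]; simp
    have h1 : P.coeff 1 = 0 := by rw [h0]; simp
    rw [hP] at h1 h2
    simp [Polynomial.coeff_C] at h1 h2
    rcases h with h | h
    · exact h h2
    · exact h h1
  have hdeg : P.natDegree ≤ 2 := by
    rw [hP]; exact Polynomial.natDegree_quadratic_le
  calc (Finset.univ.filter (fun t : K => c2 * t ^ 2 + c1 * t + c0 = 0)).card
      ≤ P.roots.toFinset.card := by
        apply Finset.card_le_card
        intro t ht
        simp only [Finset.mem_filter, Finset.mem_univ, true_and] at ht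
        rw [Multiset.mem_toFinset, Polynomial.mem_roots hne]
        simp [hP, Polynomial.IsRoot, ht]
    _ ≤ P.roots.card := Multiset.toFinset_card_le _
    _ ≤ P.natDegree := Polynomial.card_roots' P
    _ ≤ 2 := hdeg

/-- The surface `c = a³ + b³`. -/
def surf (R : Type) [CommRing R] : Set (Heis R) := {g | g.c = g.a ^ 3 + g.b ^ 3}

/-- The point of the surface over `(a, b)`. -/
def pt (t : R × R) : Heis R := ⟨t.1, t.2, t.1 ^ 3 + t.2 ^ 3⟩

@[simp] lemma pt_a (t : R × R) : (pt t).a = t.1 := rfl
@[simp] lemma pt_b (t : R × R) : (pt t).b = t.2 := rfl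
@[simp] lemma pt_c (t : R × R) : (pt t).c = t.1 ^ 3 + t.2 ^ 3 := rfl
lemma pt_mem (t : R × R) : pt t ∈ surf R := rfl

/-- The counting lemma: for a noncentral `e`, the surface meets its two-sided translate
`e · surf · u` in at most `2 |K|` points. -/
lemma card_bad_le {K : Type} [Field K] [Fintype K] [DecidableEq K] (h3 : (3 : K) ≠ 0)
    (e u : Heis K) (he : ¬ (e.a = 0 ∧ e.b = 0)) [DecidablePred (fun t : K × K => e * pt t * u ∈ surf K)] :
    (Finset.univ.filter (fun t : K × K => e * pt t * u ∈ surf K)).card ≤ 2 * Fintype.card K := by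
  classical
  have key : ∀ t : K × K, e * pt t * u ∈ surf K ↔
      3 * (e.a + u.a) * t.1 ^ 2 + (3 * (e.a + u.a) ^ 2 - u.b) * t.1 +
        (3 * (e.b + u.b) * t.2 ^ 2 + (3 * (e.b + u.b) ^ 2 - e.a) * t.2 +
          ((e.a + u.a) ^ 3 + (e.b + u.b) ^ 3 - e.c - u.c - e.a * u.b)) = 0 := by
    intro t
    simp only [surf, Set.mem_ofPred_eq, mul_a, mul_b, mul_c, pt_a, pt_b, pt_c]
    constructor
    · intro h; linear_combination -h
    · intro h; linear_combination -h
  have hcases : (3 * (e.a + u.a) ≠ 0 ∨ 3 * (e.a + u.a) ^ 2 - u.b ≠ 0) ∨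
      (3 * (e.b + u.b) ≠ 0 ∨ (3 * (e.b + u.b) ^ 2 - e.a) ≠ 0) := by
    by_contra hcon
    push Not at hcon
    obtain ⟨⟨h1, h2⟩, h4, h5⟩ := hcon
    have hA : e.a + u.a = 0 := by
      rcases mul_eq_zero.1 h1 with h | h
      · exact absurd h h3
      · exact h
    have hB : e.b + u.b = 0 := by
      rcases mul_eq_zero.1 h4 with h | h
      · exact absurd h h3
      · exact h
    rw [hA] at h2
    rw [hB] at h5
    apply he
    constructor
    · simpa using h5
    · have : u.b = 0 := by simpa using h2
      rw [this, add_zero] at hB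
      exact hB
  have hcount : (Finset.univ.filter (fun t : K × K => e * pt t * u ∈ surf K)) =
      (Finset.univ ×ˢ Finset.univ).filter (fun t : K × K => e * pt t * u ∈ surf K) := by
    rw [Finset.univ_product_univ]
  rcases hcases with hc | hc
  · -- polynomial in the first coordinate
    rw [hcount, Finset.card_filter, Finset.sum_product_right]
    calc ∑ y : K, ∑ x : K, (if e * pt (x, y) * u ∈ surf K then 1 else 0)
        ≤ ∑ _y : K, 2 := by
          apply Finset.sum_le_sum
          intro y _
          rw [← Finset.card_filter]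
          have := card_quadratic_le (3 * (e.a + u.a)) (3 * (e.a + u.a) ^ 2 - u.b)
            (3 * (e.b + u.b) * y ^ 2 + (3 * (e.b + u.b) ^ 2 - e.a) * y +
              ((e.a + u.a) ^ 3 + (e.b + u.b) ^ 3 - e.c - u.c - e.a * u.b)) hc
          refine le_trans (Finset.card_le_card ?_) this
          intro x hx
          simp only [Finset.mem_filter, Finset.mem_univ, true_and] at hx ⊢
          exact (key (x, y)).1 hx
      _ = 2 * Fintype.card K := by simp [mul_comm]
  · rw [hcount, Finset.card_filter, Finset.sum_product]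
    calc ∑ x : K, ∑ y : K, (if e * pt (x, y) * u ∈ surf K then 1 else 0)
        ≤ ∑ _x : K, 2 := by
          apply Finset.sum_le_sum
          intro x _
          rw [← Finset.card_filter]
          have := card_quadratic_le (3 * (e.b + u.b)) (3 * (e.b + u.b) ^ 2 - e.a)
            (3 * (e.a + u.a) * x ^ 2 + (3 * (e.a + u.a) ^ 2 - u.b) * x +
              ((e.a + u.a) ^ 3 + (e.b + u.b) ^ 3 - e.c - u.c - e.a * u.b)) hc
          refine le_trans (Finset.card_le_card ?_) this
          intro y hy
          simp only [Finset.mem_filter, Finset.mem_univ, true_and] at hy ⊢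
          have := (key (x, y)).1 hy
          simp only at this
          linear_combination this
      _ = 2 * Fintype.card K := by simp [mul_comm]

end Pool.Agent.Q199.CS
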