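import Pool.Agent.Q199.CS.Heis

/-! # One-scale sets in the integral Heisenberg group -/

namespace Pool.Agent.Q199.CS

/-- `g` is central. -/
def Cen (g : Heis ℤ) : Prop := g.a = 0 ∧ g.b = 0

/-- Abelianization of the integral Heisenberg group. -/
def pr (g : Heis ℤ) : ℤ × ℤ := (g.a, g.b)

lemma pr_mul (g h : Heis ℤ) : pr (g * h) = pr g + pr h := rfl
lemma pr_inv (g : Heis ℤ) : pr g⁻¹ = - pr g := rfl
lemma cen_iff (g : Heis ℤ) : Cen g ↔ pr g = 0 := by
  unfold Cen pr
  rw [Prod.ext_iff]; rfl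

/-- `U` contains no two points differing by left multiplication by a noncentral element of `E`. -/
def Sep (E : Finset (Heis ℤ)) (U : Set (Heis ℤ)) : Prop :=
  ∀ u ∈ U, ∀ e ∈ E, ¬ Cen e → e * u ∉ U

/-- Many distinct large primes. -/
lemma exists_primes (j K : ℕ) : ∃ p : Fin j → ℕ, (∀ l, (p l).Prime) ∧ Function.Injective p ∧
    ∀ l, K ≤ p l := by
  refine ⟨fun l => Nat.nth Nat.Prime (K + l), ?_, ?_, ?_⟩
  · intro l
    exact Nat.prime_nth_prime _
  · intro l l' h
    have := (Nat.nth_strictMono Nat.infinite_setOfPred_prime).injective h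
    apply Fin.ext
    omega
  · intro l
    have h1 : K + (l : ℕ) ≤ Nat.nth Nat.Prime (K + l) :=
      (Nat.nth_strictMono Nat.infinite_setOfPred_prime).le_apply
    simp only
    omega

/-- Chinese remaindering for the Heisenberg group. -/
lemma exists_lift {j : ℕ} (p : Fin j → ℕ) (hp : ∀ l, (p l).Prime) (hinj : Function.Injective p)
    (d : ∀ l, Heis (ZMod (p l))) : ∃ g : Heis ℤ, ∀ l, red (ZMod (p l)) g = d l := by
  have hcop : Pairwise (Function.onFun Nat.Coprime p) := by
    intro l l' h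
    exact (Nat.coprime_primes (hp l) (hp l')).2 (fun h' => h (hinj h'))
  have hx : ∀ x : (∀ l, ZMod (p l)), ∃ z : ℤ, ∀ l, (z : ZMod (p l)) = x l := by
    intro x
    obtain ⟨z, hz⟩ := ZMod.intCast_surjective ((ZMod.prodEquivPi p hcop).symm x)
    refine ⟨z, fun l => ?_⟩
    have h1 : ZMod.prodEquivPi p hcop (z : ZMod (∏ i, p i)) = x := by
      rw [hz]; simp
    rw [map_intCast] at h1
    rw [← h1]; rfl
  obtain ⟨za, hza⟩ := hx (fun l => (d l).a)
  obtain ⟨zb, hzb⟩ := hx (fun l => (d l).b)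
  obtain ⟨zc, hzc⟩ := hx (fun l => (d l).c)
  refine ⟨⟨za, zb, zc⟩, fun l => ?_⟩
  ext
  · exact hza l
  · exact hzb l
  · exact hzc l

/-- Counting: at a large prime there is a point of the surface avoiding finitely many
two-sided translates of the surface and finitely many vertical lines. -/
lemma exists_point (E : Finset (Heis ℤ)) (j M p : ℕ) (hp : p.Prime)
    (hbig : 4 + (∑ e ∈ E, (e.a.natAbs + e.b.natAbs)) + 2 * j * E.card + M ≤ p)
    (u : Fin j → Heis (ZMod p)) (bad : Finset (ZMod p × ZMod p)) (hbad : bad.card ≤ M) :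
    ∃ t : ZMod p × ZMod p, t ∉ bad ∧ ∀ i, ∀ e ∈ E, ¬ Cen e →
      (red (ZMod p) e)⁻¹ * pt t * u i ∉ surf (ZMod p) := by
  classical
  have : Fact p.Prime := ⟨hp⟩
  have : NeZero p := ⟨hp.ne_zero⟩
  have h3 : (3 : ZMod p) ≠ 0 := by
    intro h
    have h' : ((3 : ℕ) : ZMod p) = 0 := by exact_mod_cast h
    rw [ZMod.natCast_eq_zero_iff] at h'
    have := Nat.le_of_dvd (by norm_num) h'
    omega
  -- noncentral elements stay noncentral
  have hnc : ∀ e ∈ E, ¬ Cen e → ¬ (((red (ZMod p) e)⁻¹).a = 0 ∧ ((red (ZMod p) e)⁻¹).b = 0) := by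
    intro e he hc h
    apply hc
    have hsum : e.a.natAbs + e.b.natAbs ≤ ∑ e ∈ E, (e.a.natAbs + e.b.natAbs) :=
      Finset.single_le_sum (f := fun e : Heis ℤ => e.a.natAbs + e.b.natAbs) (fun _ _ => Nat.zero_le _) he
    have h1 : (e.a : ZMod p) = 0 := by simpa using h.1
    have h2 : (e.b : ZMod p) = 0 := by simpa using h.2
    rw [ZMod.intCast_zmod_eq_zero_iff_dvd] at h1 h2
    constructor
    · apply Int.eq_zero_of_abs_lt_dvd h1
      rw [Int.abs_eq_natAbs]
      exact_mod_cast (by omega : e.a.natAbs < p)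
    · apply Int.eq_zero_of_abs_lt_dvd h2
      rw [Int.abs_eq_natAbs]
      exact_mod_cast (by omega : e.b.natAbs < p)
  set T : Finset (ZMod p × ZMod p) := bad ∪
    ((Finset.univ : Finset (Fin j)) ×ˢ (E.filter (fun e => ¬ Cen e))).biUnion
      (fun ie => Finset.univ.filter
        (fun t : ZMod p × ZMod p => (red (ZMod p) ie.2)⁻¹ * pt t * u ie.1 ∈ surf (ZMod p))) with hT
  have hTcard : T.card < (Finset.univ : Finset (ZMod p × ZMod p)).card := by
    have h1 : T.card ≤ M + (j * E.card) * (2 * p) := by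
      refine le_trans (Finset.card_union_le _ _) ?_
      refine Nat.add_le_add hbad ?_
      refine le_trans (Finset.card_biUnion_le_card_mul _ _ (2 * p) ?_) ?_
      · rintro ⟨i, e⟩ hie
        simp only [Finset.mem_product, Finset.mem_univ, true_and, Finset.mem_filter] at hie
        have := card_bad_le h3 (red (ZMod p) e)⁻¹ (u i) (hnc e hie.1 hie.2)
        rw [ZMod.card] at this
        exact this
      · apply Nat.mul_le_mul_right
        rw [Finset.card_product, Finset.card_univ, Fintype.card_fin]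
        exact Nat.mul_le_mul_left _ (Finset.card_filter_le _ _)
    have h2 : (Finset.univ : Finset (ZMod p × ZMod p)).card = p * p := by
      rw [Finset.card_univ, Fintype.card_prod, ZMod.card]
    rw [h2]
    refine lt_of_le_of_lt h1 ?_
    have h4 : 2 * j * E.card + M + 1 ≤ p := by omega
    calc M + j * E.card * (2 * p) < (2 * j * E.card + M + 1) * p := by
          have hp1 : 1 ≤ p := hp.one_lt.le
          nlinarith
      _ ≤ p * p := Nat.mul_le_mul_right _ h4
  obtain ⟨t, -, ht⟩ := Finset.exists_mem_notMem_of_card_lt_card hTcard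
  rw [hT, Finset.mem_union, not_or] at ht
  refine ⟨t, ht.1, ?_⟩
  intro i e he hc hin
  apply ht.2
  rw [Finset.mem_biUnion]
  exact ⟨(i, e), by simp [he, hc], by simp [hin]⟩

/-- One-scale sets: an `E`-separated set which is `j`-syndetic in a strong sense. -/
lemma key (E : Finset (Heis ℤ)) (j : ℕ) (hj : 0 < j) (M : ℕ) :
    ∃ (A : Set (Heis ℤ)) (F : Finset (Heis ℤ)), Sep E A ∧
      ∀ s : Fin j → Heis ℤ, ∀ bad : Finset (ℤ × ℤ), bad.card ≤ M →
        ∃ f ∈ F, pr f ∉ bad ∧ ∀ i, f * s i ∈ A := by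
  classical
  obtain ⟨p, hp, hinj, hK⟩ := exists_primes j
    (4 + (∑ e ∈ E, (e.a.natAbs + e.b.natAbs)) + 2 * j * E.card + M)
  have : ∀ l, NeZero (p l) := fun l => ⟨(hp l).ne_zero⟩
  choose lift hlift using exists_lift p hp hinj
  set B : Set (Heis ℤ) := {g | ∃ l, red (ZMod (p l)) g ∈ surf (ZMod (p l))} with hB
  refine ⟨{g | g ∈ B ∧ ∀ e ∈ E, ¬ Cen e → e⁻¹ * g ∉ B}, Finset.univ.image lift, ?_, ?_⟩
  · rintro u ⟨hu, -⟩ e he hc ⟨-, h2⟩
    have := h2 e he hc
    rw [inv_mul_cancel_left] at this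
    exact this hu
  · intro s bad hbad
    have hpt : ∀ l, ∃ t : ZMod (p l) × ZMod (p l),
        t ∉ bad.image (fun x : ℤ × ℤ => (((x.1 + (s l).a : ℤ) : ZMod (p l)),
          ((x.2 + (s l).b : ℤ) : ZMod (p l)))) ∧
        ∀ i, ∀ e ∈ E, ¬ Cen e → (red (ZMod (p l)) e)⁻¹ * pt t *
          ((red (ZMod (p l)) (s l))⁻¹ * red (ZMod (p l)) (s i)) ∉ surf (ZMod (p l)) := by
      intro l
      exact exists_point E j M (p l) (hp l) (hK l) _ _ (le_trans Finset.card_image_le hbad)
    choose t ht1 ht2 using hpt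
    set d : ∀ l, Heis (ZMod (p l)) := fun l => pt (t l) * (red (ZMod (p l)) (s l))⁻¹ with hd
    refine ⟨lift d, Finset.mem_image_of_mem _ (Finset.mem_univ _), ?_, ?_⟩
    · intro hin
      apply ht1 ⟨0, hj⟩
      rw [Finset.mem_image]
      refine ⟨pr (lift d), hin, ?_⟩
      have h := hlift d ⟨0, hj⟩
      have ha := congrArg Heis.a h
      have hb := congrArg Heis.b h
      simp only [hd, red_a, red_b, mul_a, mul_b, pt_a, pt_b, inv_a, inv_b] at ha hb
      ext
      · simp only [pr, Int.cast_add]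
        rw [ha]; ring
      · simp only [pr, Int.cast_add]
        rw [hb]; ring
    · intro i
      refine ⟨⟨i, ?_⟩, ?_⟩
      · rw [map_mul, hlift d i, hd]
        simp only [inv_mul_cancel_right]
        exact pt_mem _
      · rintro e he hc ⟨l, hl⟩
        rw [map_mul, map_mul, hlift d l, hd, map_inv] at hl
        apply ht2 l i e he hc
        simpa only [mul_assoc] using hl

end Pool.Agent.Q199.CS
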