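import Pool.Agent.Q199.CS.Key

/-! # A completely syndetic subset of the Heisenberg group disjoint from a left translate -/

namespace Pool.Agent.Q199.CS

open Filter

/-- `E` together with its inverses. -/
noncomputable def sym (E : Finset (Heis ℤ)) : Finset (Heis ℤ) := E ∪ E.image (fun e => e⁻¹)

/-- Enlarged set of forbidden displacements. -/
noncomputable def enl (E F : Finset (Heis ℤ)) : Finset (Heis ℤ) :=
  E ∪ ((sym E ×ˢ F) ×ˢ (sym E ×ˢ F)).image
    (fun t => (t.1.1 * t.1.2) * (t.2.1 * t.2.2)⁻¹)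

/-- The single-step lemma. -/
lemma step (E : Finset (Heis ℤ)) (j : ℕ) (hj : 0 < j) :
    ∃ F E' : Finset (Heis ℤ), ∀ U : Set (Heis ℤ), Sep E' U →
      ∃ W : Set (Heis ℤ), U ⊆ W ∧ Sep E W ∧ ∀ s : Fin j → Heis ℤ, ∃ f ∈ F, ∀ i, f * s i ∈ W := by
  classical
  obtain ⟨A, F, hA, hF⟩ := key E j hj (j * (sym E).card)
  refine ⟨F, enl E F, fun U hU => ?_⟩
  have hsub : E ⊆ enl E F := Finset.subset_union_left
  refine ⟨U ∪ {g | g ∈ A ∧ ∀ e ∈ E, ¬ Cen e → e⁻¹ * g ∉ U ∧ e * g ∉ U}, Set.subset_union_left,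
    ?_, ?_⟩
  · rintro w (hw | ⟨hw, hw2⟩) e he hc (hew | ⟨hew, hew2⟩)
    · exact hU w hw e (hsub he) hc hew
    · have := (hew2 e he hc).1
      rw [inv_mul_cancel_left] at this
      exact this hw
    · exact (hw2 e he hc).2 hew
    · exact hA w hw e he hc hew
  · intro s
    have hv : ∀ i, ∃ v : ℤ × ℤ, ∀ e ∈ sym E, ∀ f ∈ F, e * f * s i ∈ U → pr (e * f * s i) = v := by
      intro i
      by_cases h : ∃ e ∈ sym E, ∃ f ∈ F, e * f * s i ∈ U
      · obtain ⟨e0, he0, f0, hf0, h0⟩ := h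
        refine ⟨pr (e0 * f0 * s i), ?_⟩
        intro e he f hf hin
        by_contra hne
        have hmem : (e * f) * (e0 * f0)⁻¹ ∈ enl E F := by
          apply Finset.mem_union_right
          rw [Finset.mem_image]
          exact ⟨((e, f), (e0, f0)), by simp [he, hf, he0, hf0], rfl⟩
        have heq : (e * f) * (e0 * f0)⁻¹ * (e0 * f0 * s i) = e * f * s i := by group
        apply hU _ h0 _ hmem
        · rw [cen_iff]
          intro h
          apply hne
          rw [← heq, pr_mul, h, zero_add]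
        · rw [heq]; exact hin
      · push Not at h
        exact ⟨0, fun e he f hf hin => absurd hin (h e he f hf)⟩
    choose v hv using hv
    obtain ⟨f, hf, hfb, hfA⟩ := hF s
      (((Finset.univ : Finset (Fin j)) ×ˢ sym E).image (fun ie => v ie.1 - pr (s ie.1) - pr ie.2))
      (by
        refine le_trans Finset.card_image_le ?_
        rw [Finset.card_product, Finset.card_univ, Fintype.card_fin])
    refine ⟨f, hf, fun i => Or.inr ⟨hfA i, ?_⟩⟩
    have hbadi : ∀ e ∈ sym E, e * f * s i ∉ U := by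
      intro e he hin
      apply hfb
      rw [Finset.mem_image]
      refine ⟨(i, e), by simp [he], ?_⟩
      have := hv i e he f hf hin
      rw [← this, pr_mul, pr_mul]
      abel
    intro e he _
    constructor
    · rw [← mul_assoc]
      exact hbadi _ (Finset.mem_union_right _ (Finset.mem_image_of_mem _ he))
    · rw [← mul_assoc]
      exact hbadi _ (Finset.mem_union_left _ he)

/-- The finite set of translators of the step. -/
noncomputable def stepF (E : Finset (Heis ℤ)) (j : ℕ) : Finset (Heis ℤ) :=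
  (step E (j + 1) (Nat.succ_pos j)).choose

/-- The finite set of displacements of the step. -/
noncomputable def stepE (E : Finset (Heis ℤ)) (j : ℕ) : Finset (Heis ℤ) :=
  (step E (j + 1) (Nat.succ_pos j)).choose_spec.choose

lemma step_spec (E : Finset (Heis ℤ)) (j : ℕ) (U : Set (Heis ℤ)) (hU : Sep (stepE E j) U) :
    ∃ W : Set (Heis ℤ), U ⊆ W ∧ Sep E W ∧
      ∀ s : Fin (j + 1) → Heis ℤ, ∃ f ∈ stepF E j, ∀ i, f * s i ∈ W :=
  (step E (j + 1) (Nat.succ_pos j)).choose_spec.choose_spec U hU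

/-- The noncentral generator. -/
def xx : Heis ℤ := ⟨1, 0, 0⟩

/-- The sequence of sets of displacements. -/
noncomputable def Eseq : ℕ → Finset (Heis ℤ)
  | 0 => {xx}
  | j + 1 => stepE (Eseq j) j

/-- The sequence of sets of translators. -/
noncomputable def Fseq (j : ℕ) : Finset (Heis ℤ) := stepF (Eseq j) j

lemma finite_stage (J : ℕ) : ∀ k : ℕ, ∃ W : Set (Heis ℤ), Sep (Eseq k) W ∧
    ∀ j, k ≤ j → j < k + J → ∀ s : Fin (j + 1) → Heis ℤ, ∃ f ∈ Fseq j, ∀ i, f * s i ∈ W := by
  induction J with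
  | zero =>
    intro k
    refine ⟨∅, ?_, ?_⟩
    · intro u hu; exact absurd hu (Set.notMem_empty _)
    · intro j h1 h2; omega
  | succ J ih =>
    intro k
    obtain ⟨U, hU, hU2⟩ := ih (k + 1)
    obtain ⟨W, hUW, hW, hW2⟩ := step_spec (Eseq k) k U hU
    refine ⟨W, hW, ?_⟩
    intro j h1 h2 s
    rcases Nat.eq_or_lt_of_le h1 with h | h
    · subst h
      exact hW2 s
    · obtain ⟨f, hf, hf2⟩ := hU2 j h (by omega) s
      exact ⟨f, hf, fun i => hUW (hf2 i)⟩

/-- The integral Heisenberg group has a completely syndetic set which is disjoint from a left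
translate of itself. -/
theorem exists_set : ∃ A : Set (Heis ℤ),
    (∀ j : ℕ, ∃ F : Finset (Heis ℤ), ∀ s : Fin (j + 1) → Heis ℤ, ∃ f ∈ F, ∀ i, f * s i ∈ A) ∧
    ∀ a ∈ A, xx * a ∉ A := by
  classical
  choose A hA1 hA2 using fun J => finite_stage J 0
  refine ⟨{g | ∀ᶠ J in (hyperfilter ℕ : Filter ℕ), g ∈ A J}, ?_, ?_⟩
  · intro j
    refine ⟨Fseq j, fun s => ?_⟩
    have hev : ∀ᶠ J in (hyperfilter ℕ : Filter ℕ), ∃ f ∈ (Fseq j : Set (Heis ℤ)),
        ∀ i, f * s i ∈ A J := by
      have : ∀ᶠ J in (hyperfilter ℕ : Filter ℕ), j < J := by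
        apply (Nat.hyperfilter_le_atTop) 
        exact eventually_gt_atTop j
      filter_upwards [this] with J hJ
      obtain ⟨f, hf, hf2⟩ := hA2 J j (Nat.zero_le _) (by omega) s
      exact ⟨f, hf, hf2⟩
    have hfin : (Fseq j : Set (Heis ℤ)).Finite := Finset.finite_toSet _
    have h2 : ∃ f ∈ (Fseq j : Set (Heis ℤ)), ∀ᶠ J in (hyperfilter ℕ : Filter ℕ),
        ∀ i, f * s i ∈ A J := by
      have h3 : (⋃ f ∈ (Fseq j : Set (Heis ℤ)), {J | ∀ i, f * s i ∈ A J}) ∈ hyperfilter ℕ := by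
        filter_upwards [hev] with J hJ
        simpa using hJ
      rw [Ultrafilter.finite_biUnion_mem_iff hfin] at h3
      exact h3
    obtain ⟨f, hf, hf2⟩ := h2
    refine ⟨f, hf, fun i => ?_⟩
    exact hf2.mono (fun J hJ => hJ i)
  · intro a ha hxa
    obtain ⟨J, h1, h2⟩ := (ha.and hxa).exists
    refine hA1 J a h1 xx ?_ ?_ h2
    · simp [Eseq]
    · rintro ⟨h, -⟩
      exact one_ne_zero h

end Pool.Agent.Q199.CS
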